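import Pool.Agent.TH930.RS.Law

set_option autoImplicit false

/-! The orbits which avoid some residue classes: the number of those which do not come down. -/

namespace Pool.Agent.TH930.RS

open Finset Pool.Agent.H319R3.GC Pool.Agent.TH930.GH Pool.Agent.H828R3.GP

variable {d : ℕ} {m r : ℕ → ℤ}

/-- the passages through a level at allowed stuck points -/
theorem card_level_gen (h : Adm d m r) {A : Finset ℕ} {κ C0 : ℝ} (hκ0 : 0 ≤ κ) (hC0 : 0 ≤ C0)
    (hK : ∀ K : ℕ, ∀ S : Finset ℤ, (∀ x ∈ S, Rs d m r A x) →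
      (∀ x ∈ S, ∀ z ∈ S, ((x - z : ℤ) : ℝ) ≤ (d : ℝ) ^ K) → (S.card : ℝ) ≤ C0 * κ ^ K) {R : ℕ}
    (hR : ∀ i < d, |(r i : ℝ)| ≤ R) {k i N t : ℕ} (hi : 1 ≤ i) (hik : i ≤ k)
    (hN : 4 * (N : ℝ) * R ≤ (d : ℝ) ^ i) (ht : 8 * (N : ℝ) * R ≤ (d : ℝ) ^ t) (S : Finset ℤ)
    (hS : ∀ x ∈ S, |(x : ℝ)| < (d : ℝ) ^ k ∧ Rs d m r A x ∧
      ∃ n ≤ N, FP d m r i n x ∧ (Tm d m r)^[n] x ∈ St d m r i) :
    (S.card : ℝ) ≤ (Er d m r A i).card * ((N + 1) * ((N + 1) ^ d * (C0 * κ ^ (k - i + 1 + t)))) := by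
  classical
  set E : ℝ := C0 * κ ^ (k - i + 1 + t) with hE
  have hE0 : 0 ≤ E := by positivity
  set B := Er d m r A i with hB
  set Fi : ℤ → ℕ → ℤ → Finset ℤ := fun y n M => S.filter
    (fun x => FP d m r i n x ∧ (Tm d m r)^[n] x = y ∧ Mu d m r n x = M) with hFi
  have hsub : S ⊆ B.biUnion (fun y => (range (N + 1)).biUnion (fun n =>
      (Ms d m n).biUnion (fun M => Fi y n M))) := by
    intro x hx
    obtain ⟨_, hrs, n, hn, hfp, hst⟩ := hS x hx
    rw [mem_biUnion]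
    refine ⟨(Tm d m r)^[n] x, ?_, ?_⟩
    · rw [hB, Er, mem_filter]
      exact ⟨hst, Rs_iter hrs n⟩
    rw [mem_biUnion]
    refine ⟨n, mem_range.2 (by omega), ?_⟩
    rw [mem_biUnion]
    refine ⟨Mu d m r n x, Mu_mem h.two_le n x, ?_⟩
    rw [hFi]
    exact mem_filter.2 ⟨hx, hfp, rfl, rfl⟩
  have hfib : ∀ y ∈ B, ∀ n ∈ range (N + 1), ∀ M ∈ Ms d m n, ((Fi y n M).card : ℝ) ≤ E := by
    intro y hy n hn M _
    rw [mem_range] at hn
    have hnN : (n : ℝ) ≤ N := by exact_mod_cast (by omega : n ≤ N)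
    have hnn : (0 : ℝ) ≤ n := Nat.cast_nonneg n
    have hy1 : (d : ℝ) ^ (i - 1) ≤ |(y : ℝ)| := by
      rw [hB, Er, mem_filter, St, mem_filter] at hy
      exact hy.1.2.1
    have hRn : (0 : ℝ) ≤ R := Nat.cast_nonneg R
    apply hK
    · intro x hx
      rw [hFi] at hx
      exact (hS x (mem_filter.1 hx).1).2.1
    · intro x hx z hz
      rw [hFi] at hx hz
      simp only [mem_filter] at hx hz
      have h1 := close h hR hRn (k := k) (i := i) (n := n) hi hik (by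
        refine le_trans ?_ hN
        apply mul_le_mul_of_nonneg_right _ hRn
        linarith) ⟨(hS x hx.1).1, hx.2⟩ ⟨(hS z hz.1).1, hz.2⟩ hy1
      refine h1.trans ?_
      rw [pow_add (d : ℝ) (k - i + 1) t, mul_comm ((d : ℝ) ^ (k - i + 1))]
      apply mul_le_mul_of_nonneg_right _ (by positivity)
      refine le_trans ?_ ht
      apply mul_le_mul_of_nonneg_right _ hRn
      linarith
  have h1 : (S.card : ℝ) ≤ ∑ y ∈ B, ∑ n ∈ range (N + 1), ∑ M ∈ Ms d m n, ((Fi y n M).card : ℝ) := by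
    have : S.card ≤ ∑ y ∈ B, ∑ n ∈ range (N + 1), ∑ M ∈ Ms d m n, (Fi y n M).card := by
      refine (card_le_card hsub).trans ?_
      refine card_biUnion_le.trans (sum_le_sum fun y _ => ?_)
      refine card_biUnion_le.trans (sum_le_sum fun n _ => ?_)
      exact card_biUnion_le
    exact_mod_cast this
  refine h1.trans ?_
  have h2 : ∀ y ∈ B, ∑ n ∈ range (N + 1), ∑ M ∈ Ms d m n, ((Fi y n M).card : ℝ) ≤
      (N + 1) * ((N + 1) ^ d * E) := by
    intro y hy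
    have h3 : ∀ n ∈ range (N + 1), ∑ M ∈ Ms d m n, ((Fi y n M).card : ℝ) ≤ ((N : ℝ) + 1) ^ d * E := by
      intro n hn
      refine (sum_le_card_nsmul _ _ E (hfib y hy n hn)).trans ?_
      rw [nsmul_eq_mul]
      apply mul_le_mul_of_nonneg_right _ hE0
      have h4 : ((Ms d m n).card : ℝ) ≤ ((n : ℝ) + 1) ^ d := by exact_mod_cast card_Ms (d := d) (m := m) n
      refine h4.trans ?_
      rw [mem_range] at hn
      have hnN : (n : ℝ) ≤ N := by exact_mod_cast (by omega : n ≤ N)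
      exact pow_le_pow_left₀ (by positivity) (by linarith) d
    refine (sum_le_card_nsmul _ _ _ h3).trans ?_
    rw [card_range, nsmul_eq_mul]
    push_cast
    exact le_refl _
  refine (sum_le_card_nsmul _ _ _ h2).trans ?_
  rw [nsmul_eq_mul]

/-- THE LAW -/
theorem law_gen (h : Adm d m r) (hc : Cop d m r) {A : Finset ℕ} (hA : A ⊆ range d)
    {s ρ κ C0 : ℝ} (hs : 0 ≤ s) (hκ1 : 1 ≤ κ) (hκd : κ ≤ d) (hC0 : 0 < C0)
    (hρ1 : ρ ≤ 1) (hρd : 1 / (d : ℝ) ≤ ρ)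
    (hZ : ∑ j ∈ A, (|(m j : ℝ)| / d) ^ s ≤ κ * ρ)
    (hK : ∀ K : ℕ, ∀ S : Finset ℤ, (∀ x ∈ S, Rs d m r A x) →
      (∀ x ∈ S, ∀ z ∈ S, ((x - z : ℤ) : ℝ) ≤ (d : ℝ) ^ K) → (S.card : ℝ) ≤ C0 * κ ^ K) :
    ∃ C : ℝ, 0 < C ∧ ∀ k l : ℕ, ∀ S : Finset ℤ,
      (∀ x ∈ S, |(x : ℝ)| < (d : ℝ) ^ k ∧ Rs d m r A x ∧
        ∀ j, (d : ℝ) ^ l ≤ |(((Tm d m r)^[j] x : ℤ) : ℝ)|) →
      (S.card : ℝ) ≤ C * ((k : ℝ) + 1) ^ (2 * d + 5) * (κ ^ k * ρ ^ l) := by
  classical
  obtain ⟨R, hR1, hR⟩ := exists_R d r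
  have hdR : (2 : ℝ) ≤ d := by exact_mod_cast h.two_le
  have hd0 : (0 : ℝ) < d := by linarith
  have hR1R : (1 : ℝ) ≤ R := by exact_mod_cast hR1
  have hRn : (0 : ℝ) ≤ R := by linarith
  have hρ0 : 0 < ρ := lt_of_lt_of_le (by positivity) hρd
  have hAdR : κ ≤ d := hκd
  have hA1R : (1 : ℝ) ≤ κ := hκ1
  refine ⟨24 * C0 * (2 * d) ^ s * d ^ 2 * R + 4 * C0 * d * R, by positivity, ?_⟩
  intro k l S hS
  have hk0 : (0 : ℝ) ≤ k := Nat.cast_nonneg k
  have hpk : (1 : ℝ) ≤ (k + 1 : ℝ) ^ (2 * d + 5) := one_le_pow₀ (by linarith)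
  have hmain0 : 0 ≤ κ ^ k * ρ ^ l := by positivity
  rcases le_or_gt (4 * ((k * k : ℕ) : ℝ) * R) ((d : ℝ) ^ l) with hcase | hcase
  swap
  · -- small levels
    have h1 := hK (k + 1) S (fun x hx => (hS x hx).2.1) (by
      intro x hx z hz
      have h1 := (abs_lt.1 (hS x hx).1).2
      have h2 := (abs_lt.1 (hS z hz).1).1
      push_cast
      rw [pow_succ]
      have : (0 : ℝ) < (d : ℝ) ^ k := by positivity
      nlinarith)
    have h2 : 1 ≤ 4 * ((k * k : ℕ) : ℝ) * R * ρ ^ l := by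
      have h3 : (1 / (d : ℝ)) ^ l ≤ ρ ^ l := pow_le_pow_left₀ (by positivity) hρd l
      have h4 : (1 / (d : ℝ)) ^ l * (d : ℝ) ^ l = 1 := by
        rw [← mul_pow]; field_simp; simp
      have h5 : (0 : ℝ) < (1 / (d : ℝ)) ^ l := by positivity
      calc (1 : ℝ) = (1 / (d : ℝ)) ^ l * (d : ℝ) ^ l := h4.symm
        _ ≤ (1 / (d : ℝ)) ^ l * (4 * ((k * k : ℕ) : ℝ) * R) := mul_le_mul_of_nonneg_left hcase.le h5.le
        _ ≤ ρ ^ l * (4 * ((k * k : ℕ) : ℝ) * R) := mul_le_mul_of_nonneg_right h3 (by positivity)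
        _ = _ := by ring
    have h3 : ((k * k : ℕ) : ℝ) ≤ (k + 1 : ℝ) ^ (2 * d + 5) := by
      have : ((k * k : ℕ) : ℝ) ≤ (k + 1 : ℝ) ^ 2 := by push_cast; nlinarith
      exact this.trans (pow_le_pow_right₀ (by linarith) (by omega))
    calc (S.card : ℝ) ≤ C0 * κ ^ (k + 1) := h1
      _ = C0 * κ * (κ ^ k * 1) := by rw [pow_succ]; ring
      _ ≤ C0 * d * (κ ^ k * (4 * ((k * k : ℕ) : ℝ) * R * ρ ^ l)) := by
          apply mul_le_mul (mul_le_mul_of_nonneg_left hAdR hC0.le) _ (by positivity) (by positivity)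
          exact mul_le_mul_of_nonneg_left h2 (by positivity)
      _ = (4 * C0 * d * R) * ((k * k : ℕ) : ℝ) * (κ ^ k * ρ ^ l) := by ring
      _ ≤ (4 * C0 * d * R) * (k + 1 : ℝ) ^ (2 * d + 5) * (κ ^ k * ρ ^ l) := by
          apply mul_le_mul_of_nonneg_right _ hmain0
          exact mul_le_mul_of_nonneg_left h3 (by positivity)
      _ ≤ _ := by
          apply mul_le_mul_of_nonneg_right _ hmain0
          apply mul_le_mul_of_nonneg_right _ (by positivity)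
          have : 0 ≤ 24 * C0 * (2 * d : ℝ) ^ s * d ^ 2 * R := by positivity
          linarith
  rcases Nat.lt_or_ge l k with hlk | hlk
  swap
  · have h0 : S = ∅ := by
      rw [eq_empty_iff_forall_notMem]
      intro x hx
      obtain ⟨h1, _, h2⟩ := hS x hx
      have h3 := h2 0
      simp only [Function.iterate_zero, id] at h3
      have h4 : (d : ℝ) ^ k ≤ (d : ℝ) ^ l := pow_le_pow_right₀ (by linarith) hlk
      linarith
    rw [h0, card_empty, Nat.cast_zero]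
    positivity
  -- the main case
  have hk1 : 1 ≤ k := by omega
  set N : ℕ := k * k with hN
  set t : ℕ := Nat.clog d (8 * N * R) with ht
  have hN1 : 1 ≤ N := Nat.mul_pos hk1 hk1
  have h8 : 1 < 8 * N * R := by
    have : 1 ≤ N * R := Nat.mul_pos hN1 hR1
    nlinarith
  have ht1 : 8 * (N : ℝ) * R ≤ (d : ℝ) ^ t := by
    have := Nat.le_pow_clog (b := d) (by have := h.two_le; omega) (8 * N * R)
    exact_mod_cast this
  have ht2 : (d : ℝ) ^ t ≤ d * (8 * N * R) := by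
    have h3 := Nat.pow_pred_clog_lt_self (b := d) (by have := h.two_le; omega) h8
    have h4 : 0 < t := Nat.clog_pos (by have := h.two_le; omega) h8
    have h5 : d ^ t = d * d ^ (t - 1) := by
      rw [← pow_succ']; congr 1; omega
    have h6 : d ^ (t - 1) ≤ 8 * N * R := by
      rw [← Nat.pred_eq_sub_one]; exact h3.le
    have h7 : d ^ t ≤ d * (8 * N * R) := by rw [h5]; exact Nat.mul_le_mul_left _ h6
    exact_mod_cast h7
  have hAt : κ ^ t ≤ d * (8 * N * R) :=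
    (pow_le_pow_left₀ (by linarith) hAdR t).trans ht2
  have hkR : 4 * (k : ℝ) * R ≤ (d : ℝ) ^ l := by
    refine le_trans ?_ hcase
    have : (k : ℝ) ≤ N := by
      have : k ≤ k * k := Nat.le_mul_of_pos_left _ hk1
      exact_mod_cast this
    apply mul_le_mul_of_nonneg_right _ hRn
    linarith
  set Si : ℕ → Finset ℤ := fun i => S.filter (fun x => ∃ n ≤ N, FP d m r i n x ∧ (Tm d m r)^[n] x ∈ St d m r i)
    with hSi
  have hsub : S ⊆ (Ioc l k).biUnion Si := by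
    intro x hx
    obtain ⟨g1, g2, g3⟩ := hS x hx
    rcases first_stuck h hR hRn hkR g1 (k - l) (by omega) with ⟨i, n, h1, h2, h3, h4, h5⟩ | ⟨n, _, h4⟩
    · rw [mem_biUnion]
      refine ⟨i, mem_Ioc.2 ⟨h1, h2⟩, ?_⟩
      rw [hSi]
      exact mem_filter.2 ⟨hx, n, h3, h4, h5⟩
    · exfalso
      have h5 := h4.2
      have e : k - (k - l) = l := by omega
      rw [e] at h5
      have := g3 n
      linarith
  have h1 : (S.card : ℝ) ≤ ∑ i ∈ Ioc l k, ((Si i).card : ℝ) := by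
    exact_mod_cast (card_le_card hsub).trans card_biUnion_le
  set Q : ℝ := 3 * (2 * d : ℝ) ^ s * (((N : ℝ) + 1) ^ (d + 1) * (C0 * (d * (d * (8 * N * R))))) *
    κ ^ k with hQ
  have hQ0 : 0 ≤ Q := by positivity
  have h2 : ∀ i ∈ Ioc l k, ((Si i).card : ℝ) ≤ Q * ρ ^ l := by
    intro i hi
    rw [mem_Ioc] at hi
    have h3 := card_level_gen h (by linarith) hC0.le hK hR (k := k) (i := i) (N := N) (t := t) (by omega) hi.2
      (hcase.trans (pow_le_pow_right₀ (by linarith) hi.1.le)) ht1 (Si i) (by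
        intro x hx
        rw [hSi, mem_filter] at hx
        exact ⟨(hS x hx.1).1, (hS x hx.1).2.1, hx.2⟩)
    have h4 := card_Er hc hA hs i
    have h5 : (∑ j ∈ A, (|(m j : ℝ)| / d) ^ s) ^ i ≤ (κ * ρ) ^ i :=
      pow_le_pow_left₀ (sum_nonneg fun j _ => by positivity) hZ i
    have h6 : ((Er d m r A i).card : ℝ) ≤ 3 * (2 * d) ^ s * (κ * ρ) ^ i :=
      h4.trans (mul_le_mul_of_nonneg_left h5 (by positivity))
    have h7 : ρ ^ i ≤ ρ ^ l := pow_le_pow_of_le_one hρ0.le hρ1 hi.1.le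
    have h8' : κ ^ (k - i + 1 + t) ≤ κ ^ (k - i) * (d * (d * (8 * N * R))) := by
      rw [pow_add, pow_succ, mul_assoc]
      apply mul_le_mul_of_nonneg_left _ (by positivity)
      exact mul_le_mul hAdR hAt (by positivity) (by positivity)
    have h9 : κ ^ i * κ ^ (k - i) = κ ^ k := by
      rw [← pow_add]; congr 1; omega
    calc ((Si i).card : ℝ)
        ≤ (Er d m r A i).card * ((N + 1) * ((N + 1) ^ d * (C0 * κ ^ (k - i + 1 + t)))) := h3
      _ ≤ (3 * (2 * d) ^ s * (κ * ρ) ^ i) *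
          ((N + 1) * ((N + 1) ^ d * (C0 * (κ ^ (k - i) * (d * (d * (8 * N * R))))))) := by
          apply mul_le_mul h6 _ (by positivity) (by positivity)
          apply mul_le_mul_of_nonneg_left _ (by positivity)
          apply mul_le_mul_of_nonneg_left _ (by positivity)
          exact mul_le_mul_of_nonneg_left h8' hC0.le
      _ = 3 * (2 * d) ^ s * (((N : ℝ) + 1) ^ (d + 1) * (C0 * (d * (d * (8 * N * R))))) *
          (κ ^ i * κ ^ (k - i)) * ρ ^ i := by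
          rw [mul_pow, pow_succ ((N : ℝ) + 1)]; ring
      _ = Q * ρ ^ i := by rw [h9]
      _ ≤ Q * ρ ^ l := mul_le_mul_of_nonneg_left h7 hQ0
  have h3 : (S.card : ℝ) ≤ k * (Q * ρ ^ l) := by
    refine h1.trans ((sum_le_card_nsmul _ _ _ h2).trans ?_)
    rw [nsmul_eq_mul, Nat.card_Ioc]
    apply mul_le_mul_of_nonneg_right _ (by positivity)
    exact_mod_cast Nat.sub_le _ _
  refine h3.trans ?_
  have hN2 : (N : ℝ) + 1 ≤ (k + 1 : ℝ) ^ 2 := by rw [hN]; push_cast; nlinarith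
  have hN3 : (N : ℝ) ≤ (k + 1 : ℝ) ^ 2 := by linarith
  have h4 : ((N : ℝ) + 1) ^ (d + 1) ≤ (k + 1 : ℝ) ^ (2 * d + 2) := by
    calc ((N : ℝ) + 1) ^ (d + 1) ≤ ((k + 1 : ℝ) ^ 2) ^ (d + 1) := pow_le_pow_left₀ (by positivity) hN2 _
      _ = _ := by rw [← pow_mul]; congr 1
  have h5 : (k : ℝ) * (((N : ℝ) + 1) ^ (d + 1) * N) ≤ (k + 1 : ℝ) ^ (2 * d + 5) := by
    calc (k : ℝ) * (((N : ℝ) + 1) ^ (d + 1) * N) ≤ (k + 1) * ((k + 1 : ℝ) ^ (2 * d + 2) * (k + 1 : ℝ) ^ 2) := by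
          apply mul_le_mul (by linarith) _ (by positivity) (by positivity)
          exact mul_le_mul h4 hN3 (by positivity) (by positivity)
      _ = _ := by
          rw [← pow_add, ← pow_succ']
  calc (k : ℝ) * (Q * ρ ^ l) = (24 * C0 * (2 * d) ^ s * d ^ 2 * R) * ((k : ℝ) * (((N : ℝ) + 1) ^ (d + 1) * N)) *
        (κ ^ k * ρ ^ l) := by rw [hQ]; ring
    _ ≤ (24 * C0 * (2 * d) ^ s * d ^ 2 * R) * (k + 1 : ℝ) ^ (2 * d + 5) * (κ ^ k * ρ ^ l) := by
        apply mul_le_mul_of_nonneg_right _ hmain0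
        exact mul_le_mul_of_nonneg_left h5 (by positivity)
    _ ≤ _ := by
        apply mul_le_mul_of_nonneg_right _ hmain0
        apply mul_le_mul_of_nonneg_right _ (by positivity)
        have : 0 ≤ 4 * C0 * (d : ℝ) * R := by positivity
        linarith



end Pool.Agent.TH930.RS
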