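import Pool.Agent.TH930.RS.Res

set_option autoImplicit false

/-! The orbits which avoid some residue classes: the number of those which do not come down. -/

namespace Pool.Agent.TH930.RS

open Finset Pool.Agent.H319R3.GC Pool.Agent.TH930.GH Pool.Agent.H828R3.GP

variable {d : ℕ} {m r : ℕ → ℤ}

lemma exists_R (d : ℕ) (r : ℕ → ℤ) : ∃ R : ℕ, 1 ≤ R ∧ ∀ i < d, |(r i : ℝ)| ≤ R := by
  refine ⟨∑ i ∈ range d, (r i).natAbs + 1, by omega, fun i hi => ?_⟩
  have h1 : (r i).natAbs ≤ ∑ i ∈ range d, (r i).natAbs :=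
    single_le_sum (f := fun i => (r i).natAbs) (fun _ _ => Nat.zero_le _) (mem_range.2 hi)
  rw [Pool.Agent.TH930.ZT.abs_natAbs]
  exact_mod_cast h1.trans (Nat.le_succ _)

/-- the passages through a level at allowed stuck points -/
theorem card_level (h : Adm d m r) (hc : Cop d m r) {A : Finset ℕ} (hA : A ⊆ range d) {R : ℕ}
    (hR : ∀ i < d, |(r i : ℝ)| ≤ R) {k i N t : ℕ} (hi : 1 ≤ i) (hik : i ≤ k)
    (hN : 4 * (N : ℝ) * R ≤ (d : ℝ) ^ i) (ht : 8 * (N : ℝ) * R ≤ (d : ℝ) ^ t) (S : Finset ℤ)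
    (hS : ∀ x ∈ S, |(x : ℝ)| < (d : ℝ) ^ k ∧ Rs d m r A x ∧
      ∃ n ≤ N, FP d m r i n x ∧ (Tm d m r)^[n] x ∈ St d m r i) :
    (S.card : ℝ) ≤ (Er d m r A i).card * ((N + 1) * ((N + 1) ^ d * (2 * (A.card : ℝ) ^ (k - i + 1 + t)))) := by
  classical
  set E : ℝ := 2 * (A.card : ℝ) ^ (k - i + 1 + t) with hE
  have hE0 : 0 ≤ E := by positivity
  set B := Er d m r A i with hB
  set Fi : ℤ → ℕ → ℤ → Finset ℤ := fun y n M => S.filter
    (fun x => FP d m r i n x ∧ (Tm d m r)^[n] x = y ∧ Mu d m r n x = M) with hFi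
  have hsub : S ⊆ B.biUnion (fun y => (range (N + 1)).biUnion (fun n =>
      (Ms d m n).biUnion (fun M => Fi y n M))) := by
    intro x hx
    obtain ⟨_, hrs, n, hn, hfp, hst⟩ := hS x hx
    rw [mem_biUnion]
    refine ⟨(Tm d m r)^[n] x, ?_, ?_⟩
    · rw [hB, Er, mem_filter]
      exact ⟨hst, Rs_iter hrs n⟩
    rw [mem_biUnion]
    refine ⟨n, mem_range.2 (by omega), ?_⟩
    rw [mem_biUnion]
    refine ⟨Mu d m r n x, Mu_mem h.two_le n x, ?_⟩
    rw [hFi]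
    exact mem_filter.2 ⟨hx, hfp, rfl, rfl⟩
  have hfib : ∀ y ∈ B, ∀ n ∈ range (N + 1), ∀ M ∈ Ms d m n, ((Fi y n M).card : ℝ) ≤ E := by
    intro y hy n hn M _
    rw [mem_range] at hn
    have hnN : (n : ℝ) ≤ N := by exact_mod_cast (by omega : n ≤ N)
    have hnn : (0 : ℝ) ≤ n := Nat.cast_nonneg n
    have hy1 : (d : ℝ) ^ (i - 1) ≤ |(y : ℝ)| := by
      rw [hB, Er, mem_filter, St, mem_filter] at hy
      exact hy.1.2.1
    have hRn : (0 : ℝ) ≤ R := Nat.cast_nonneg R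
    apply card_short hc hA
    · intro x hx
      rw [hFi] at hx
      exact (hS x (mem_filter.1 hx).1).2.1
    · intro x hx z hz
      rw [hFi] at hx hz
      simp only [mem_filter] at hx hz
      have h1 := close h hR hRn (k := k) (i := i) (n := n) hi hik (by
        refine le_trans ?_ hN
        apply mul_le_mul_of_nonneg_right _ hRn
        linarith) ⟨(hS x hx.1).1, hx.2⟩ ⟨(hS z hz.1).1, hz.2⟩ hy1
      refine h1.trans ?_
      rw [pow_add (d : ℝ) (k - i + 1) t, mul_comm ((d : ℝ) ^ (k - i + 1))]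
      apply mul_le_mul_of_nonneg_right _ (by positivity)
      refine le_trans ?_ ht
      apply mul_le_mul_of_nonneg_right _ hRn
      linarith
  have h1 : (S.card : ℝ) ≤ ∑ y ∈ B, ∑ n ∈ range (N + 1), ∑ M ∈ Ms d m n, ((Fi y n M).card : ℝ) := by
    have : S.card ≤ ∑ y ∈ B, ∑ n ∈ range (N + 1), ∑ M ∈ Ms d m n, (Fi y n M).card := by
      refine (card_le_card hsub).trans ?_
      refine card_biUnion_le.trans (sum_le_sum fun y _ => ?_)
      refine card_biUnion_le.trans (sum_le_sum fun n _ => ?_)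
      exact card_biUnion_le
    exact_mod_cast this
  refine h1.trans ?_
  have h2 : ∀ y ∈ B, ∑ n ∈ range (N + 1), ∑ M ∈ Ms d m n, ((Fi y n M).card : ℝ) ≤
      (N + 1) * ((N + 1) ^ d * E) := by
    intro y hy
    have h3 : ∀ n ∈ range (N + 1), ∑ M ∈ Ms d m n, ((Fi y n M).card : ℝ) ≤ ((N : ℝ) + 1) ^ d * E := by
      intro n hn
      refine (sum_le_card_nsmul _ _ E (hfib y hy n hn)).trans ?_
      rw [nsmul_eq_mul]
      apply mul_le_mul_of_nonneg_right _ hE0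
      have h4 : ((Ms d m n).card : ℝ) ≤ ((n : ℝ) + 1) ^ d := by exact_mod_cast card_Ms (d := d) (m := m) n
      refine h4.trans ?_
      rw [mem_range] at hn
      have hnN : (n : ℝ) ≤ N := by exact_mod_cast (by omega : n ≤ N)
      exact pow_le_pow_left₀ (by positivity) (by linarith) d
    refine (sum_le_card_nsmul _ _ _ h3).trans ?_
    rw [card_range, nsmul_eq_mul]
    push_cast
    exact le_refl _
  refine (sum_le_card_nsmul _ _ _ h2).trans ?_
  rw [nsmul_eq_mul]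

/-- THE LAW -/
theorem law_res (h : Adm d m r) (hc : Cop d m r) {A : Finset ℕ} (hA : A ⊆ range d) (hA1 : 1 ≤ A.card)
    {s ρ : ℝ} (hs : 0 ≤ s) (hρ1 : ρ ≤ 1) (hρd : 1 / (d : ℝ) ≤ ρ)
    (hZ : ∑ j ∈ A, (|(m j : ℝ)| / d) ^ s ≤ A.card * ρ) :
    ∃ C : ℝ, 0 < C ∧ ∀ k l : ℕ, ∀ S : Finset ℤ,
      (∀ x ∈ S, |(x : ℝ)| < (d : ℝ) ^ k ∧ Rs d m r A x ∧
        ∀ j, (d : ℝ) ^ l ≤ |(((Tm d m r)^[j] x : ℤ) : ℝ)|) →
      (S.card : ℝ) ≤ C * ((k : ℝ) + 1) ^ (2 * d + 5) * ((A.card : ℝ) ^ k * ρ ^ l) := by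
  classical
  obtain ⟨R, hR1, hR⟩ := exists_R d r
  have hdR : (2 : ℝ) ≤ d := by exact_mod_cast h.two_le
  have hd0 : (0 : ℝ) < d := by linarith
  have hR1R : (1 : ℝ) ≤ R := by exact_mod_cast hR1
  have hRn : (0 : ℝ) ≤ R := by linarith
  have hρ0 : 0 < ρ := lt_of_lt_of_le (by positivity) hρd
  have hAd : A.card ≤ d := by
    have := card_le_card hA
    rwa [card_range] at this
  have hAdR : (A.card : ℝ) ≤ d := by exact_mod_cast hAd
  have hA1R : (1 : ℝ) ≤ A.card := by exact_mod_cast hA1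
  refine ⟨48 * (2 * d) ^ s * d ^ 2 * R + 8 * d * R, by positivity, ?_⟩
  intro k l S hS
  have hk0 : (0 : ℝ) ≤ k := Nat.cast_nonneg k
  have hpk : (1 : ℝ) ≤ (k + 1 : ℝ) ^ (2 * d + 5) := one_le_pow₀ (by linarith)
  have hmain0 : 0 ≤ (A.card : ℝ) ^ k * ρ ^ l := by positivity
  rcases le_or_gt (4 * ((k * k : ℕ) : ℝ) * R) ((d : ℝ) ^ l) with hcase | hcase
  swap
  · -- small levels
    have h1 := card_short hc hA (k + 1) S (fun x hx => (hS x hx).2.1) (by
      intro x hx z hz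
      have h1 := (abs_lt.1 (hS x hx).1).2
      have h2 := (abs_lt.1 (hS z hz).1).1
      push_cast
      rw [pow_succ]
      have : (0 : ℝ) < (d : ℝ) ^ k := by positivity
      nlinarith)
    have h2 : 1 ≤ 4 * ((k * k : ℕ) : ℝ) * R * ρ ^ l := by
      have h3 : (1 / (d : ℝ)) ^ l ≤ ρ ^ l := pow_le_pow_left₀ (by positivity) hρd l
      have h4 : (1 / (d : ℝ)) ^ l * (d : ℝ) ^ l = 1 := by
        rw [← mul_pow]; field_simp; simp
      have h5 : (0 : ℝ) < (1 / (d : ℝ)) ^ l := by positivity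
      calc (1 : ℝ) = (1 / (d : ℝ)) ^ l * (d : ℝ) ^ l := h4.symm
        _ ≤ (1 / (d : ℝ)) ^ l * (4 * ((k * k : ℕ) : ℝ) * R) := mul_le_mul_of_nonneg_left hcase.le h5.le
        _ ≤ ρ ^ l * (4 * ((k * k : ℕ) : ℝ) * R) := mul_le_mul_of_nonneg_right h3 (by positivity)
        _ = _ := by ring
    have h3 : ((k * k : ℕ) : ℝ) ≤ (k + 1 : ℝ) ^ (2 * d + 5) := by
      have : ((k * k : ℕ) : ℝ) ≤ (k + 1 : ℝ) ^ 2 := by push_cast; nlinarith
      exact this.trans (pow_le_pow_right₀ (by linarith) (by omega))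
    calc (S.card : ℝ) ≤ 2 * (A.card : ℝ) ^ (k + 1) := h1
      _ = 2 * A.card * ((A.card : ℝ) ^ k * 1) := by rw [pow_succ]; ring
      _ ≤ 2 * d * ((A.card : ℝ) ^ k * (4 * ((k * k : ℕ) : ℝ) * R * ρ ^ l)) := by
          apply mul_le_mul (by linarith) _ (by positivity) (by positivity)
          exact mul_le_mul_of_nonneg_left h2 (by positivity)
      _ = (8 * d * R) * ((k * k : ℕ) : ℝ) * ((A.card : ℝ) ^ k * ρ ^ l) := by ring
      _ ≤ (8 * d * R) * (k + 1 : ℝ) ^ (2 * d + 5) * ((A.card : ℝ) ^ k * ρ ^ l) := by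
          apply mul_le_mul_of_nonneg_right _ hmain0
          exact mul_le_mul_of_nonneg_left h3 (by positivity)
      _ ≤ _ := by
          apply mul_le_mul_of_nonneg_right _ hmain0
          apply mul_le_mul_of_nonneg_right _ (by positivity)
          have : 0 ≤ 48 * (2 * d : ℝ) ^ s * d ^ 2 * R := by positivity
          linarith
  rcases Nat.lt_or_ge l k with hlk | hlk
  swap
  · have h0 : S = ∅ := by
      rw [eq_empty_iff_forall_notMem]
      intro x hx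
      obtain ⟨h1, _, h2⟩ := hS x hx
      have h3 := h2 0
      simp only [Function.iterate_zero, id] at h3
      have h4 : (d : ℝ) ^ k ≤ (d : ℝ) ^ l := pow_le_pow_right₀ (by linarith) hlk
      linarith
    rw [h0, card_empty, Nat.cast_zero]
    positivity
  -- the main case
  have hk1 : 1 ≤ k := by omega
  set N : ℕ := k * k with hN
  set t : ℕ := Nat.clog d (8 * N * R) with ht
  have hN1 : 1 ≤ N := Nat.mul_pos hk1 hk1
  have h8 : 1 < 8 * N * R := by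
    have : 1 ≤ N * R := Nat.mul_pos hN1 hR1
    nlinarith
  have ht1 : 8 * (N : ℝ) * R ≤ (d : ℝ) ^ t := by
    have := Nat.le_pow_clog (b := d) (by have := h.two_le; omega) (8 * N * R)
    exact_mod_cast this
  have ht2 : (d : ℝ) ^ t ≤ d * (8 * N * R) := by
    have h3 := Nat.pow_pred_clog_lt_self (b := d) (by have := h.two_le; omega) h8
    have h4 : 0 < t := Nat.clog_pos (by have := h.two_le; omega) h8
    have h5 : d ^ t = d * d ^ (t - 1) := by
      rw [← pow_succ']; congr 1; omega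
    have h6 : d ^ (t - 1) ≤ 8 * N * R := by
      rw [← Nat.pred_eq_sub_one]; exact h3.le
    have h7 : d ^ t ≤ d * (8 * N * R) := by rw [h5]; exact Nat.mul_le_mul_left _ h6
    exact_mod_cast h7
  have hAt : (A.card : ℝ) ^ t ≤ d * (8 * N * R) :=
    (pow_le_pow_left₀ (by linarith) hAdR t).trans ht2
  have hkR : 4 * (k : ℝ) * R ≤ (d : ℝ) ^ l := by
    refine le_trans ?_ hcase
    have : (k : ℝ) ≤ N := by
      have : k ≤ k * k := Nat.le_mul_of_pos_left _ hk1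
      exact_mod_cast this
    apply mul_le_mul_of_nonneg_right _ hRn
    linarith
  set Si : ℕ → Finset ℤ := fun i => S.filter (fun x => ∃ n ≤ N, FP d m r i n x ∧ (Tm d m r)^[n] x ∈ St d m r i)
    with hSi
  have hsub : S ⊆ (Ioc l k).biUnion Si := by
    intro x hx
    obtain ⟨g1, g2, g3⟩ := hS x hx
    rcases first_stuck h hR hRn hkR g1 (k - l) (by omega) with ⟨i, n, h1, h2, h3, h4, h5⟩ | ⟨n, _, h4⟩
    · rw [mem_biUnion]
      refine ⟨i, mem_Ioc.2 ⟨h1, h2⟩, ?_⟩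
      rw [hSi]
      exact mem_filter.2 ⟨hx, n, h3, h4, h5⟩
    · exfalso
      have h5 := h4.2
      have e : k - (k - l) = l := by omega
      rw [e] at h5
      have := g3 n
      linarith
  have h1 : (S.card : ℝ) ≤ ∑ i ∈ Ioc l k, ((Si i).card : ℝ) := by
    exact_mod_cast (card_le_card hsub).trans card_biUnion_le
  set Q : ℝ := 3 * (2 * d : ℝ) ^ s * (((N : ℝ) + 1) ^ (d + 1) * (2 * (d * (d * (8 * N * R))))) *
    (A.card : ℝ) ^ k with hQ
  have hQ0 : 0 ≤ Q := by positivity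
  have h2 : ∀ i ∈ Ioc l k, ((Si i).card : ℝ) ≤ Q * ρ ^ l := by
    intro i hi
    rw [mem_Ioc] at hi
    have h3 := card_level h hc hA hR (k := k) (i := i) (N := N) (t := t) (by omega) hi.2
      (hcase.trans (pow_le_pow_right₀ (by linarith) hi.1.le)) ht1 (Si i) (by
        intro x hx
        rw [hSi, mem_filter] at hx
        exact ⟨(hS x hx.1).1, (hS x hx.1).2.1, hx.2⟩)
    have h4 := card_Er hc hA hs i
    have h5 : (∑ j ∈ A, (|(m j : ℝ)| / d) ^ s) ^ i ≤ (A.card * ρ) ^ i :=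
      pow_le_pow_left₀ (sum_nonneg fun j _ => by positivity) hZ i
    have h6 : ((Er d m r A i).card : ℝ) ≤ 3 * (2 * d) ^ s * (A.card * ρ) ^ i :=
      h4.trans (mul_le_mul_of_nonneg_left h5 (by positivity))
    have h7 : ρ ^ i ≤ ρ ^ l := pow_le_pow_of_le_one hρ0.le hρ1 hi.1.le
    have h8' : (A.card : ℝ) ^ (k - i + 1 + t) ≤ (A.card : ℝ) ^ (k - i) * (d * (d * (8 * N * R))) := by
      rw [pow_add, pow_succ, mul_assoc]
      apply mul_le_mul_of_nonneg_left _ (by positivity)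
      exact mul_le_mul hAdR hAt (by positivity) (by positivity)
    have h9 : (A.card : ℝ) ^ i * (A.card : ℝ) ^ (k - i) = (A.card : ℝ) ^ k := by
      rw [← pow_add]; congr 1; omega
    calc ((Si i).card : ℝ)
        ≤ (Er d m r A i).card * ((N + 1) * ((N + 1) ^ d * (2 * (A.card : ℝ) ^ (k - i + 1 + t)))) := h3
      _ ≤ (3 * (2 * d) ^ s * (A.card * ρ) ^ i) *
          ((N + 1) * ((N + 1) ^ d * (2 * ((A.card : ℝ) ^ (k - i) * (d * (d * (8 * N * R))))))) := by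
          apply mul_le_mul h6 _ (by positivity) (by positivity)
          apply mul_le_mul_of_nonneg_left _ (by positivity)
          apply mul_le_mul_of_nonneg_left _ (by positivity)
          linarith
      _ = 3 * (2 * d) ^ s * (((N : ℝ) + 1) ^ (d + 1) * (2 * (d * (d * (8 * N * R))))) *
          ((A.card : ℝ) ^ i * (A.card : ℝ) ^ (k - i)) * ρ ^ i := by
          rw [mul_pow, pow_succ ((N : ℝ) + 1)]; ring
      _ = Q * ρ ^ i := by rw [h9]
      _ ≤ Q * ρ ^ l := mul_le_mul_of_nonneg_left h7 hQ0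
  have h3 : (S.card : ℝ) ≤ k * (Q * ρ ^ l) := by
    refine h1.trans ((sum_le_card_nsmul _ _ _ h2).trans ?_)
    rw [nsmul_eq_mul, Nat.card_Ioc]
    apply mul_le_mul_of_nonneg_right _ (by positivity)
    exact_mod_cast Nat.sub_le _ _
  refine h3.trans ?_
  have hN2 : (N : ℝ) + 1 ≤ (k + 1 : ℝ) ^ 2 := by rw [hN]; push_cast; nlinarith
  have hN3 : (N : ℝ) ≤ (k + 1 : ℝ) ^ 2 := by linarith
  have h4 : ((N : ℝ) + 1) ^ (d + 1) ≤ (k + 1 : ℝ) ^ (2 * d + 2) := by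
    calc ((N : ℝ) + 1) ^ (d + 1) ≤ ((k + 1 : ℝ) ^ 2) ^ (d + 1) := pow_le_pow_left₀ (by positivity) hN2 _
      _ = _ := by rw [← pow_mul]; congr 1
  have h5 : (k : ℝ) * (((N : ℝ) + 1) ^ (d + 1) * N) ≤ (k + 1 : ℝ) ^ (2 * d + 5) := by
    calc (k : ℝ) * (((N : ℝ) + 1) ^ (d + 1) * N) ≤ (k + 1) * ((k + 1 : ℝ) ^ (2 * d + 2) * (k + 1 : ℝ) ^ 2) := by
          apply mul_le_mul (by linarith) _ (by positivity) (by positivity)
          exact mul_le_mul h4 hN3 (by positivity) (by positivity)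
      _ = _ := by
          rw [← pow_add, ← pow_succ']
  calc (k : ℝ) * (Q * ρ ^ l) = (48 * (2 * d) ^ s * d ^ 2 * R) * ((k : ℝ) * (((N : ℝ) + 1) ^ (d + 1) * N)) *
        ((A.card : ℝ) ^ k * ρ ^ l) := by rw [hQ]; ring
    _ ≤ (48 * (2 * d) ^ s * d ^ 2 * R) * (k + 1 : ℝ) ^ (2 * d + 5) * ((A.card : ℝ) ^ k * ρ ^ l) := by
        apply mul_le_mul_of_nonneg_right _ hmain0
        exact mul_le_mul_of_nonneg_left h5 (by positivity)
    _ ≤ _ := by
        apply mul_le_mul_of_nonneg_right _ hmain0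
        apply mul_le_mul_of_nonneg_right _ (by positivity)
        have : 0 ≤ 8 * (d : ℝ) * R := by positivity
        linarith


lemma exists_i0 (hd : 2 ≤ d) (R : ℕ) : ∃ i₀ : ℕ, 1 ≤ i₀ ∧ ∀ i : ℕ, i₀ ≤ i → 4 * (i : ℝ) * R ≤ (d : ℝ) ^ (i - 1) := by
  have hdR : (2 : ℝ) ≤ d := by exact_mod_cast hd
  have h1 := (tendsto_pow_const_div_const_pow_of_one_lt 1 (show (1 : ℝ) < d by linarith)).eventually_lt_const
    (show (0 : ℝ) < 1 / (4 * (R + 1) * d) by positivity)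
  obtain ⟨i₀, h2⟩ := Filter.eventually_atTop.1 h1
  refine ⟨i₀ + 1, by omega, fun i hi => ?_⟩
  have h3 := h2 i (by omega)
  rw [pow_one, div_lt_div_iff₀ (by positivity) (by positivity), one_mul] at h3
  obtain ⟨j, rfl⟩ : ∃ j, i = j + 1 := ⟨i - 1, by omega⟩
  rw [Nat.add_sub_cancel]
  rw [pow_succ] at h3
  have h4 : 4 * ((j + 1 : ℕ) : ℝ) * (R + 1) ≤ (d : ℝ) ^ j := by
    have : (((j + 1 : ℕ) : ℝ) * (4 * (R + 1))) * d < (d : ℝ) ^ j * d := by linarith
    have := lt_of_mul_lt_mul_right this (by linarith)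
    linarith
  have h5 : (0 : ℝ) ≤ ((j + 1 : ℕ) : ℝ) := Nat.cast_nonneg _
  nlinarith

/-- pairwise disjoint orbits -/
theorem unrelated (h : Adm d m r) (hc : Cop d m r) {A : Finset ℕ} (hA : A ⊆ range d)
    {s ρ : ℝ} (hs : 0 ≤ s) (hρe : 1 ≤ A.card * ρ)
    (hZ : ∑ j ∈ A, (|(m j : ℝ)| / d) ^ s ≤ A.card * ρ) :
    ∃ C : ℝ, 0 < C ∧ ∀ k : ℕ, ∀ S : Finset ℤ,
      (∀ x ∈ S, |(x : ℝ)| < (d : ℝ) ^ k ∧ Rs d m r A x) →
      (∀ x ∈ S, ∀ y ∈ S, x ≠ y → ∀ i j, (Tm d m r)^[i] x ≠ (Tm d m r)^[j] y) →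
      (S.card : ℝ) ≤ C * ((k : ℝ) + 1) * (A.card * ρ) ^ k := by
  classical
  obtain ⟨R, hR1, hR⟩ := exists_R d r
  obtain ⟨i₀, hi1, hi₀⟩ := exists_i0 h.two_le R
  have hdR : (2 : ℝ) ≤ d := by exact_mod_cast h.two_le
  have hd0 : (0 : ℝ) < d := by linarith
  have hRn : (0 : ℝ) ≤ R := Nat.cast_nonneg R
  refine ⟨(2 * (d : ℝ) ^ i₀ + 1) + 3 * (2 * d) ^ s, by positivity, ?_⟩
  intro k S hS hdis
  have hk0 : (0 : ℝ) ≤ k := Nat.cast_nonneg k
  -- the least element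
  have hmin : ∀ x : ℤ, ∃ n : ℕ, ∀ j, ((Tm d m r)^[n] x).natAbs ≤ ((Tm d m r)^[j] x).natAbs := by
    intro x
    have hne : (Set.range (fun j => ((Tm d m r)^[j] x).natAbs)).Nonempty := ⟨_, 0, rfl⟩
    obtain ⟨n, hn⟩ := Nat.sInf_mem hne
    refine ⟨n, fun j => ?_⟩
    have h1 := Nat.sInf_le (s := Set.range (fun j => ((Tm d m r)^[j] x).natAbs)) ⟨j, rfl⟩
    simp only at hn
    rw [hn]
    exact h1
  choose f hf using hmin
  set g : ℤ → ℤ := fun x => (Tm d m r)^[f x] x with hg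
  have hinj : Set.InjOn g S := by
    intro x hx y hy hxy
    by_contra hne
    exact hdis x hx y hy hne (f x) (f y) hxy
  have hcard : S.card = (S.image g).card := (card_image_of_injOn hinj).symm
  have hsub : S.image g ⊆ (Icc (-(d : ℤ) ^ i₀) ((d : ℤ) ^ i₀)) ∪ (Icc 1 k).biUnion (fun i => Er d m r A i) := by
    intro z hz
    rw [mem_image] at hz
    obtain ⟨x, hx, rfl⟩ := hz
    obtain ⟨hx1, hx2⟩ := hS x hx
    set z := g x with hz
    have hz1 : |(z : ℝ)| ≤ |(x : ℝ)| := by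
      have := hf x 0
      simp only [Function.iterate_zero, id] at this
      rw [Pool.Agent.TH930.ZT.abs_natAbs, Pool.Agent.TH930.ZT.abs_natAbs]
      exact_mod_cast this
    have hz2 : ∀ j, |(z : ℝ)| ≤ |(((Tm d m r)^[j] z : ℤ) : ℝ)| := by
      intro j
      have := hf x (j + f x)
      rw [Function.iterate_add_apply] at this
      rw [Pool.Agent.TH930.ZT.abs_natAbs, Pool.Agent.TH930.ZT.abs_natAbs]
      exact_mod_cast this
    have hz3 : Rs d m r A z := Rs_iter hx2 (f x)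
    rw [mem_union]
    by_cases hsm : |(z : ℝ)| < (d : ℝ) ^ i₀
    · exact Or.inl (mem_Icc_of_abs hsm)
    right
    rw [not_lt] at hsm
    have hz0 : z ≠ 0 := by
      intro h0
      rw [h0, Int.cast_zero, abs_zero] at hsm
      have : (0 : ℝ) < (d : ℝ) ^ i₀ := by positivity
      linarith
    have hl1 := Pool.Agent.TH930.FD.lev_lt h.two_le z
    have hl2 := Pool.Agent.TH930.FD.lev_ge (d := d) hz0
    set i := Pool.Agent.TH930.FD.lev d z with hi
    have hi1' : 1 ≤ i := by rw [hi]; unfold Pool.Agent.TH930.FD.lev; omega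
    have hi0i : i₀ ≤ i := by
      have h1 : (d : ℝ) ^ i₀ < (d : ℝ) ^ i := lt_of_le_of_lt hsm hl1
      exact ((pow_lt_pow_iff_right₀ (by linarith : (1 : ℝ) < d)).1 h1).le
    have hik : i ≤ k := by
      have h1 : (d : ℝ) ^ (i - 1) < (d : ℝ) ^ k := by linarith
      have := (pow_lt_pow_iff_right₀ (by linarith : (1 : ℝ) < d)).1 h1
      omega
    rw [mem_biUnion]
    refine ⟨i, mem_Icc.2 ⟨hi1', hik⟩, ?_⟩
    rw [Er, mem_filter]
    refine ⟨?_, hz3⟩
    by_contra hns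
    obtain ⟨j, _, hj⟩ := pass_next h hR hRn hi1' (hi₀ i hi0i) hl1 hns
    have := hz2 j
    linarith
  have h1 : (S.card : ℝ) ≤ (Icc (-(d : ℤ) ^ i₀) ((d : ℤ) ^ i₀)).card + ∑ i ∈ Icc 1 k, ((Er d m r A i).card : ℝ) := by
    rw [hcard]
    have h2 := (card_le_card hsub).trans ((card_union_le _ _).trans (Nat.add_le_add_left card_biUnion_le _))
    exact_mod_cast h2
  have h2 : (((Icc (-(d : ℤ) ^ i₀) ((d : ℤ) ^ i₀)).card : ℕ) : ℝ) = 2 * (d : ℝ) ^ i₀ + 1 := by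
    rw [Int.card_Icc]
    have e : (d : ℤ) ^ i₀ + 1 - -(d : ℤ) ^ i₀ = ((2 * d ^ i₀ + 1 : ℕ) : ℤ) := by push_cast; ring
    rw [e, Int.toNat_natCast]
    push_cast; ring
  have hQ : ∀ i ∈ Icc 1 k, ((Er d m r A i).card : ℝ) ≤ 3 * (2 * d) ^ s * (A.card * ρ) ^ k := by
    intro i hi
    rw [mem_Icc] at hi
    refine (card_Er hc hA hs i).trans ?_
    apply mul_le_mul_of_nonneg_left _ (by positivity)
    calc (∑ j ∈ A, (|(m j : ℝ)| / d) ^ s) ^ i ≤ (A.card * ρ) ^ i :=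
          pow_le_pow_left₀ (sum_nonneg fun j _ => by positivity) hZ i
      _ ≤ (A.card * ρ) ^ k := pow_le_pow_right₀ hρe hi.2
  have h3 : ∑ i ∈ Icc 1 k, ((Er d m r A i).card : ℝ) ≤ k * (3 * (2 * d) ^ s * (A.card * ρ) ^ k) := by
    refine (sum_le_card_nsmul _ _ _ hQ).trans ?_
    rw [nsmul_eq_mul, Nat.card_Icc, Nat.add_sub_cancel]
  have h4 : (1 : ℝ) ≤ (A.card * ρ) ^ k := one_le_pow₀ hρe
  rw [h2] at h1
  have h5 : (2 * (d : ℝ) ^ i₀ + 1) ≤ (2 * (d : ℝ) ^ i₀ + 1) * ((k : ℝ) + 1) * (A.card * ρ) ^ k := by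
    have : (1 : ℝ) ≤ ((k : ℝ) + 1) * (A.card * ρ) ^ k := by nlinarith
    have h6 : (0 : ℝ) ≤ 2 * (d : ℝ) ^ i₀ + 1 := by positivity
    calc (2 * (d : ℝ) ^ i₀ + 1) = (2 * (d : ℝ) ^ i₀ + 1) * 1 := by ring
      _ ≤ (2 * (d : ℝ) ^ i₀ + 1) * (((k : ℝ) + 1) * (A.card * ρ) ^ k) := mul_le_mul_of_nonneg_left this h6
      _ = _ := by ring
  have h6 : (k : ℝ) * (3 * (2 * d) ^ s * (A.card * ρ) ^ k) ≤ 3 * (2 * d) ^ s * ((k : ℝ) + 1) * (A.card * ρ) ^ k := by
    have h7 : (0 : ℝ) ≤ 3 * (2 * d) ^ s * (A.card * ρ) ^ k := by positivity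
    nlinarith
  calc (S.card : ℝ) ≤ (2 * (d : ℝ) ^ i₀ + 1) * ((k : ℝ) + 1) * (A.card * ρ) ^ k +
        3 * (2 * d) ^ s * ((k : ℝ) + 1) * (A.card * ρ) ^ k := by linarith
    _ = _ := by ring

end Pool.Agent.TH930.RS
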