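import Pool.Agent.TH930.FD.Law

set_option autoImplicit false

/-! Generalised `3x+1` maps of coprime type: the orbits which avoid some residue classes. -/

namespace Pool.Agent.TH930.RS

open Finset Pool.Agent.H319R3.GC Pool.Agent.TH930.GH Pool.Agent.H828R3.GP

variable {d : ℕ} {m r : ℕ → ℤ}

/-- the orbit of `x` has all its residues mod `d` in `A` -/
def Rs (d : ℕ) (m r : ℕ → ℤ) (A : Finset ℕ) (x : ℤ) : Prop := ∀ j : ℕ, (((Tm d m r)^[j] x) % d).toNat ∈ A

lemma Rs_iter {A : Finset ℕ} {x : ℤ} (h : Rs d m r A x) (n : ℕ) : Rs d m r A ((Tm d m r)^[n] x) := by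
  intro j
  rw [← Function.iterate_add_apply]
  exact h (j + n)

lemma wd_Rs {A : Finset ℕ} (k : ℕ) : ∀ {x : ℤ}, Rs d m r A x → ∀ i ∈ wd d m r k x, i ∈ A := by
  induction k with
  | zero => intro x _ i hi; simp [wd] at hi
  | succ k ih =>
    intro x hx i hi
    rw [wd, List.mem_cons] at hi
    rcases hi with rfl | hi
    · exact hx 0
    · exact ih (Rs_iter hx 1) i hi

lemma Mu_eq (n : ℕ) : ∀ x : ℤ, Mu d m r n x = Mw m (wd d m r n x) := by
  induction n with
  | zero => intro x; simp [Mu, wd, Mw]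
  | succ n ih =>
    intro x
    have h1 := ih (Tm d m r x)
    unfold Mu at h1 ⊢
    rw [prod_range_succ']
    simp only [Function.iterate_succ_apply, Function.iterate_zero, id]
    rw [h1]
    simp [wd, Mw, mul_comm]

lemma Pr_one {A : Finset ℕ} {v : List ℕ} (hv : ∀ i ∈ v, i ∈ A) :
    Pr (fun i => if i ∈ A then (1 : ℝ) else 0) v = 1 := by
  induction v with
  | nil => simp [Pr]
  | cons a v ih =>
    rw [Pr_cons, if_pos (hv a (by simp)), ih (fun i hi => hv i (by simp [hi])), mul_one]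

lemma Pr_nonneg {p : ℕ → ℝ} (hp : ∀ i, 0 ≤ p i) (v : List ℕ) : 0 ≤ Pr p v := by
  induction v with
  | nil => simp [Pr]
  | cons a v ih => rw [Pr_cons]; exact mul_nonneg (hp a) ih

lemma Pr_s {A : Finset ℕ} (s : ℝ) {v : List ℕ} (hv : ∀ i ∈ v, i ∈ A) :
    Pr (fun i => if i ∈ A then (|(m i : ℝ)| / d) ^ s else 0) v = (|(Mw m v : ℝ)| / (d : ℝ) ^ v.length) ^ s := by
  induction v with
  | nil => simp [Pr, Mw]
  | cons a v ih =>
    rw [Pr_cons, if_pos (hv a (by simp)), ih (fun i hi => hv i (by simp [hi])),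
      ← Real.mul_rpow (by positivity) (by positivity)]
    congr 1
    simp only [Mw, List.map_cons, List.prod_cons, List.length_cons, pow_succ]
    push_cast
    rw [abs_mul]
    rw [div_mul_div_comm, mul_comm (d : ℝ)]

/-- the number of members of a short interval -/
theorem card_short (h : Cop d m r) {A : Finset ℕ} (hA : A ⊆ range d) (K : ℕ) (S : Finset ℤ)
    (hS : ∀ x ∈ S, Rs d m r A x) (hd : ∀ x ∈ S, ∀ z ∈ S, ((x - z : ℤ) : ℝ) ≤ (d : ℝ) ^ K) :
    (S.card : ℝ) ≤ 2 * (A.card : ℝ) ^ K := by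
  classical
  have hd0 : 0 < d ^ K := by have := h.two_le; positivity
  have hcard : S.card = ∑ w ∈ LW d K, (S.filter (fun x => wd d m r K x = w)).card := by
    apply card_eq_sum_card_fiberwise
    intro x _
    exact mem_coe.2 (wd_mem h.two_le K x)
  have hfib : ∀ w ∈ LW d K, ((S.filter (fun x => wd d m r K x = w)).card : ℝ) ≤
      2 * Pr (fun i => if i ∈ A then (1 : ℝ) else 0) w := by
    intro w hw
    rcases (S.filter (fun x => wd d m r K x = w)).eq_empty_or_nonempty with h0 | ⟨x0, hx0⟩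
    · rw [h0, card_empty, Nat.cast_zero]
      exact mul_nonneg (by norm_num) (Pr_nonneg (fun i => by split_ifs <;> norm_num) w)
    rw [mem_filter] at hx0
    rw [Pr_one (by rw [← hx0.2]; exact wd_Rs K (hS x0 hx0.1)), mul_one]
    have h3 := card_ap (S.filter (fun x => wd d m r K x = w)) (d ^ K) hd0 x0 ((d : ℝ) ^ K) (by positivity) (by
        intro x hx
        rw [mem_filter] at hx
        have h4 := h.wd_cong (hx.2.trans hx0.2.symm)
        push_cast
        exact h4) (by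
        intro x hx z hz
        rw [mem_filter] at hx hz
        exact hd x hx.1 z hz.1)
    refine h3.trans (le_of_eq ?_)
    have : ((d : ℝ)) ^ K ≠ 0 := by have := h.two_le; positivity
    push_cast
    rw [div_self this]; norm_num
  have h1 : (S.card : ℝ) ≤ ∑ w ∈ LW d K, 2 * Pr (fun i => if i ∈ A then (1 : ℝ) else 0) w := by
    rw [hcard]
    push_cast
    exact sum_le_sum hfib
  refine h1.trans (le_of_eq ?_)
  rw [← mul_sum, sum_Pr]
  congr 2
  rw [← sum_filter, sum_const, nsmul_eq_mul, mul_one]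
  congr 2
  ext i
  rw [mem_filter]
  exact ⟨fun h => h.2, fun h => ⟨hA h, h⟩⟩

open Classical in
/-- the stuck points of level `i` with an allowed orbit -/
noncomputable def Er (d : ℕ) (m r : ℕ → ℤ) (A : Finset ℕ) (i : ℕ) : Finset ℤ :=
  (St d m r i).filter (fun y => Rs d m r A y)

theorem card_Er (h : Cop d m r) {A : Finset ℕ} (hA : A ⊆ range d) {s : ℝ} (hs : 0 ≤ s) (i : ℕ) :
    ((Er d m r A i).card : ℝ) ≤ 3 * (2 * d) ^ s * (∑ j ∈ A, (|(m j : ℝ)| / d) ^ s) ^ i := by
  classical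
  have hdR : (2 : ℝ) ≤ d := by exact_mod_cast h.two_le
  have hd0 : 0 < d ^ i := by have := h.two_le; positivity
  have hdi : (0 : ℝ) < (d : ℝ) ^ i := by positivity
  set E := Er d m r A i with hE
  have hmem : ∀ y ∈ E, Rs d m r A y ∧ |(y : ℝ)| ≤ (d : ℝ) ^ i ∧ (d : ℝ) ^ i < 2 * d * |(Mw m (wd d m r i y) : ℝ)| := by
    intro y hy
    rw [hE, Er, mem_filter, St, mem_filter, mem_Icc] at hy
    obtain ⟨⟨⟨h1, h2⟩, h3, h4⟩, h5⟩ := hy
    refine ⟨h5, ?_, by rw [← Mu_eq]; exact h4⟩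
    have : |y| ≤ (d : ℤ) ^ i := abs_le.2 ⟨h1, h2⟩
    exact_mod_cast this
  have hcard : E.card = ∑ w ∈ LW d i, (E.filter (fun x => wd d m r i x = w)).card := by
    apply card_eq_sum_card_fiberwise
    intro x _
    exact mem_coe.2 (wd_mem h.two_le i x)
  set p : ℕ → ℝ := fun i => if i ∈ A then (|(m i : ℝ)| / d) ^ s else 0 with hp
  have hp0 : ∀ i, 0 ≤ p i := fun i => by rw [hp]; simp only; split_ifs <;> positivity
  have hfib : ∀ w ∈ LW d i, ((E.filter (fun x => wd d m r i x = w)).card : ℝ) ≤ 3 * (2 * d) ^ s * Pr p w := by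
    intro w hw
    have hwl := (mem_LW.1 hw).1
    rcases (E.filter (fun x => wd d m r i x = w)).eq_empty_or_nonempty with h0 | ⟨x0, hx0⟩
    · rw [h0, card_empty, Nat.cast_zero]
      exact mul_nonneg (by positivity) (Pr_nonneg hp0 w)
    rw [mem_filter] at hx0
    obtain ⟨a1, a2, a3⟩ := hmem x0 hx0.1
    rw [hx0.2] at a3
    rw [hp, Pr_s s (by rw [← hx0.2]; exact wd_Rs i a1), hwl]
    have h2 : 1 ≤ (2 * d : ℝ) ^ s * (|(Mw m w : ℝ)| / (d : ℝ) ^ i) ^ s := by
      rw [← Real.mul_rpow (by positivity) (by positivity)]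
      apply Real.one_le_rpow _ hs
      rw [mul_div_assoc', le_div_iff₀ hdi]
      linarith
    have h3 := card_ap (E.filter (fun x => wd d m r i x = w)) (d ^ i) hd0 x0 (2 * (d : ℝ) ^ i) (by positivity) (by
        intro x hx
        rw [mem_filter] at hx
        have h4 := h.wd_cong (hx.2.trans hx0.2.symm)
        push_cast
        exact h4) (by
        intro x hx z hz
        rw [mem_filter] at hx hz
        have g1 := (hmem x hx.1).2.1
        have g2 := (hmem z hz.1).2.1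
        push_cast
        have := abs_le.1 g1
        have := abs_le.1 g2
        linarith)
    have h4 : ((E.filter (fun x => wd d m r i x = w)).card : ℝ) ≤ 3 := by
      refine h3.trans (le_of_eq ?_)
      push_cast
      rw [mul_div_assoc, div_self hdi.ne']; norm_num
    calc ((E.filter (fun x => wd d m r i x = w)).card : ℝ) ≤ 3 * 1 := by linarith
      _ ≤ 3 * ((2 * d : ℝ) ^ s * (|(Mw m w : ℝ)| / (d : ℝ) ^ i) ^ s) := by linarith
      _ = _ := by ring
  have h1 : (E.card : ℝ) ≤ ∑ w ∈ LW d i, 3 * (2 * d) ^ s * Pr p w := by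
    rw [hcard]
    push_cast
    exact sum_le_sum hfib
  refine h1.trans (le_of_eq ?_)
  rw [← mul_sum, sum_Pr]
  congr 2
  rw [hp, ← sum_filter]
  congr 1
  ext i
  rw [mem_filter]
  exact ⟨fun h => h.2, fun h => ⟨hA h, h⟩⟩

/-- two points with the same passage are close -/
lemma close (h : Adm d m r) {R : ℝ} (hR : ∀ i < d, |(r i : ℝ)| ≤ R) (hR0 : 0 ≤ R) {k i n : ℕ}
    (hi : 1 ≤ i) (hik : i ≤ k) (hn : 4 * n * R ≤ (d : ℝ) ^ i) {x z M y : ℤ}
    (hx : |(x : ℝ)| < (d : ℝ) ^ k ∧ FP d m r i n x ∧ (Tm d m r)^[n] x = y ∧ Mu d m r n x = M)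
    (hz : |(z : ℝ)| < (d : ℝ) ^ k ∧ FP d m r i n z ∧ (Tm d m r)^[n] z = y ∧ Mu d m r n z = M)
    (hy : (d : ℝ) ^ (i - 1) ≤ |(y : ℝ)|) : ((x - z : ℤ) : ℝ) ≤ 8 * n * R * (d : ℝ) ^ (k - i + 1) := by
  classical
  have hnn : (0 : ℝ) ≤ 8 * n * R * (d : ℝ) ^ (k - i + 1) := by positivity
  rcases le_or_gt (x - z) 0 with h0 | h0
  · have : ((x - z : ℤ) : ℝ) ≤ 0 := by exact_mod_cast h0
    linarith
  set q : ℕ := (x - z).toNat with hq
  have hqz : (q : ℤ) = x - z := Int.toNat_of_nonneg h0.le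
  have hq0 : 0 < q := by omega
  have hne : x ≠ z := by omega
  have h1 := fiber h hR hR0 (k := k) (i := i) (n := n) hi hik hn {x, z} hq0 x M y (by
    intro w hw
    rw [mem_insert, mem_singleton] at hw
    rcases hw with rfl | rfl
    · exact ⟨hx.1, by simp, hx.2.1, hx.2.2.1, hx.2.2.2⟩
    · refine ⟨hz.1, ?_, hz.2.1, hz.2.2.1, hz.2.2.2⟩
      rw [hqz]
      exact ⟨-1, by ring⟩) hy
  rw [card_pair hne] at h1
  have hqR : (0 : ℝ) < q := by exact_mod_cast hq0
  have h2 : (1 : ℝ) ≤ 8 * n * R * (d : ℝ) ^ (k - i + 1) / q := by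
    push_cast at h1
    linarith
  rw [le_div_iff₀ hqR, one_mul] at h2
  have h3 : ((x - z : ℤ) : ℝ) = q := by rw [← hqz]; simp
  rw [h3]
  exact h2

/-- the first stuck level -/
theorem first_stuck (h : Adm d m r) {R : ℝ} (hR : ∀ i < d, |(r i : ℝ)| ≤ R) (hR0 : 0 ≤ R) {k l : ℕ}
    (hkR : 4 * (k : ℝ) * R ≤ (d : ℝ) ^ l) {x : ℤ} (hx : |(x : ℝ)| < (d : ℝ) ^ k) :
    ∀ c : ℕ, l + c ≤ k → (∃ i n, l < i ∧ i ≤ k ∧ n ≤ k * k ∧ FP d m r i n x ∧
      (Tm d m r)^[n] x ∈ St d m r i) ∨ (∃ n, n ≤ c * k ∧ FP d m r (k - c) n x) := by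
  classical
  have hdR : (2 : ℝ) ≤ d := by exact_mod_cast h.two_le
  intro c
  induction c with
  | zero =>
    intro _
    exact Or.inr ⟨0, by omega, ⟨fun j hj => by omega, by simpa using hx⟩⟩
  | succ c ih =>
    intro hc
    rcases ih (by omega) with h1 | ⟨n, hn, hfp⟩
    · exact Or.inl h1
    set i := k - c with hi
    have hi1 : 1 ≤ i := by omega
    have hli : l < i := by omega
    have e : k - (c + 1) = i - 1 := by omega
    rw [e]
    set y := (Tm d m r)^[n] x with hy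
    by_cases hSt : y ∈ St d m r i
    · left
      refine ⟨i, n, hli, by omega, ?_, hfp, hSt⟩
      exact hn.trans (Nat.mul_le_mul_right _ (by omega))
    right
    have hiR : 4 * (i : ℝ) * R ≤ (d : ℝ) ^ (i - 1) := by
      have h2 : (i : ℝ) ≤ k := by exact_mod_cast (by omega : i ≤ k)
      calc 4 * (i : ℝ) * R ≤ 4 * k * R := by
            apply mul_le_mul_of_nonneg_right _ hR0; linarith
        _ ≤ (d : ℝ) ^ l := hkR
        _ ≤ _ := pow_le_pow_right₀ (by linarith) (by omega)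
    have hex : ∃ j, |(((Tm d m r)^[j] y : ℤ) : ℝ)| < (d : ℝ) ^ (i - 1) := by
      obtain ⟨j, _, h3⟩ := pass_next h hR hR0 hi1 hiR hfp.2 hSt
      exact ⟨j, h3⟩
    obtain ⟨j0, g1, g2⟩ := pass_next h hR hR0 hi1 hiR hfp.2 hSt
    set j := Nat.find hex with hj
    have hj1 : |(((Tm d m r)^[j] y : ℤ) : ℝ)| < (d : ℝ) ^ (i - 1) := Nat.find_spec hex
    have hj2 : ∀ e < j, (d : ℝ) ^ (i - 1) ≤ |(((Tm d m r)^[e] y : ℤ) : ℝ)| :=
      fun e he => not_lt.1 (Nat.find_min hex he)
    have hj3 : j ≤ j0 := Nat.find_min' hex g2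
    refine ⟨j + n, ?_, ?_, ?_⟩
    · rw [add_mul, one_mul]; omega
    · intro e he
      rcases Nat.lt_or_ge e n with h3 | h3
      · exact le_trans (pow_le_pow_right₀ (by linarith) (by omega)) (hfp.1 e h3)
      · obtain ⟨f, rfl⟩ := Nat.exists_eq_add_of_le h3
        have := hj2 f (by omega)
        rw [hy, ← Function.iterate_add_apply, add_comm] at this
        exact this
    · rw [Function.iterate_add_apply]
      exact hj1

end Pool.Agent.TH930.RS
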